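import Pool.Agent.KR3.FinM

/-!
# MP_3aedf3_gt, Q1: positive answer (in ZFC, without the hypothesis `𝔟 > ω₁`)

If `X` is a stratifiable `k`-space with a compact-countable `k`-network and `A₃(X)` is a
`k_R`-space, then `A₃(X)` is a `k`-space.
-/

namespace Pool.Agent.Results.MP_3aedf3_gt.A3KRImpliesK

universe u

open KR3

/-- **Positive answer to Q1.**  Let `X` be a stratifiable `k`-space with a compact-countable
`k`-network `P`.  If the subspace `A₃(X)` of the free abelian topological group is a `k_R`-space,
then it is a `k`-space. -/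
theorem result {X : Type u} [TopologicalSpace X] (hstrat : Stratifiable X) (hk : IsKSpace X)
    (P : Set (Set X)) (hP : IsKNetwork P) (hcc : CompactCountable P)
    (hkR : IsKRSpace (A3 X)) : IsKSpace (A3 X) :=
  main ⟨hstrat, hk, P, hP, hcc⟩ hkR

end Pool.Agent.Results.MP_3aedf3_gt.A3KRImpliesK
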